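import Pool.Agent.Helper71.BM.Basic

/-!
# Transversals of pairwise intersecting long cycles: no cheap linkage close to the left end
-/

set_option autoImplicit false

namespace Pool.Agent.Helper71.BM

open Finset ErdPos

section lists
variable {V : Type} {G : SimpleGraph V}

/-- the decomposition of a long list into legs and core -/
lemma near_dec {L : ℕ} (hL : 1 ≤ L) {l : List V} (h : 2 * L ≤ l.length) :
    ∃ (A : List V) (a : V) (b : V) (D : List V), l = A ++ a :: (core L l ++ b :: D) ∧
      A.length + 1 = L ∧ D.length + 1 = L ∧ (core L l).length + 2 * L = l.length := by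
  have h1 : L - 1 < l.length := by omega
  have h2 : l.length - L < l.length := by omega
  have hlen : (core L l).length + 2 * L = l.length := by
    simp only [core, List.length_take, List.length_drop]
    omega
  refine ⟨l.take (L - 1), l[L - 1], l[l.length - L], l.drop (l.length - L + 1), ?_, ?_, ?_, hlen⟩
  · have e1 : l[l.length - L] :: l.drop (l.length - L + 1) = l.drop (l.length - L) :=
      (List.drop_eq_getElem_cons h2).symm
    have e2 : core L l ++ l.drop (l.length - L) = l.drop L := by
      have e3 : l.drop (l.length - L) = (l.drop L).drop (l.length - 2 * L) := by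
        rw [List.drop_drop]
        congr 1
        omega
      rw [e3, core, List.take_append_drop]
    have e4 : l[L - 1] :: l.drop L = l.drop (L - 1) := by
      rw [List.drop_eq_getElem_cons h1]
      congr 2
      omega
    rw [e1, e2, e4, List.take_append_drop]
  · simp only [List.length_take]; omega
  · simp only [List.length_drop]; omega

lemma near_perm {α β : Type} (P : List α) (f g : α → List β) :
    (P.map (fun x => f x ++ g x)).flatten.Perm ((P.map f).flatten ++ (P.map g).flatten) := by
  induction P with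
  | nil => simp
  | cons a P ih =>
    simp only [List.map_cons, List.flatten_cons, List.append_assoc]
    refine List.Perm.append_left _ ?_
    refine (List.Perm.append_left _ ih).trans ?_
    rw [← List.append_assoc, ← List.append_assoc]
    exact List.Perm.append_right _ List.perm_append_comm

lemma near_sub {α β : Type} (P : List α) (f g : α → List β)
    (h : ∀ x ∈ P, (f x).Sublist (g x)) :
    (P.map f).flatten.Sublist (P.map g).flatten := by
  induction P with
  | nil => simp
  | cons a P ih =>
    simp only [List.map_cons, List.flatten_cons]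
    exact (h a (by simp)).append (ih (fun x hx => h x (by simp [hx])))

lemma near_len {α β : Type} (P : List α) (f : α → List β) (n : ℕ)
    (h : ∀ x ∈ P, (f x).length = n) : (P.map f).flatten.length = P.length * n := by
  induction P with
  | nil => simp
  | cons a P ih =>
    simp only [List.map_cons, List.flatten_cons, List.length_append, List.length_cons]
    rw [h a (by simp), ih (fun x hx => h x (by simp [hx]))]
    ring

/-- pieces of an ear -/
lemma near_ear [DecidableEq V] {q : ℕ} {W : Finset V} {t : ℕ → V} {α β : ℕ} {l A c D : List V}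
    {a b : V} (h : Ear G q W t α β l) (hl : l = A ++ a :: (c ++ b :: D)) :
    (∃ u ∈ Tm q t, PL G a u (a :: A.reverse) ∧ ∀ v ∈ a :: A.reverse, v ∈ Tm q t → v = u) ∧
    (∃ u ∈ Tm q t, PL G b u (b :: D) ∧ ∀ v ∈ b :: D, v ∈ Tm q t → v = u) ∧
    ∀ v ∈ c, v ∉ Tm q t := by
  subst hl
  obtain ⟨h1, h2, h3, h4, h5, h6⟩ := h
  have hnd := h4.2.2.1
  have hL : PL G (t α) a (A ++ [a]) := h4.left
  have hR : PL G b (t β) (b :: D) := by
    have e : A ++ a :: (c ++ b :: D) = (A ++ a :: c) ++ b :: D := by simp
    rw [e] at h4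
    exact h4.right
  have hα : t α ∈ A ++ [a] := hL.head_mem
  have hβ : t β ∈ b :: D := hR.last_mem
  have e2 : A ++ a :: (c ++ b :: D) = (A ++ [a]) ++ (c ++ (b :: D)) := by simp
  have hnd' := hnd
  rw [e2, List.nodup_append] at hnd'
  obtain ⟨n1, n2, n3⟩ := hnd'
  rw [List.nodup_append] at n2
  obtain ⟨n4, n5, n6⟩ := n2
  refine ⟨⟨t α, mem_Tm.2 ⟨α, h1, rfl⟩, ?_, ?_⟩, ⟨t β, mem_Tm.2 ⟨β, h2, rfl⟩, hR, ?_⟩, ?_⟩
  · have := hL.reverse
    simpa using this
  · intro v hv hvT
    have hv' : v ∈ A ++ [a] := by
      simp at hv ⊢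
      tauto
    obtain ⟨i, hi, rfl⟩ := mem_Tm.1 hvT
    rcases h6 (t i) (by rw [e2]; exact List.mem_append_left _ hv') i hi rfl with rfl | rfl
    · rfl
    · exact absurd rfl (n3 _ hv' _ (List.mem_append_right _ hβ))
  · intro v hv hvT
    obtain ⟨i, hi, rfl⟩ := mem_Tm.1 hvT
    rcases h6 (t i) (by rw [e2]; exact List.mem_append_right _ (List.mem_append_right _ hv))
      i hi rfl with rfl | rfl
    · exact absurd rfl (n3 _ hα _ (List.mem_append_right _ hv))
    · rfl
  · intro v hv hvT
    obtain ⟨i, hi, rfl⟩ := mem_Tm.1 hvT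
    rcases h6 (t i) (by rw [e2]; exact List.mem_append_right _ (List.mem_append_left _ hv))
      i hi rfl with rfl | rfl
    · exact absurd rfl (n3 _ hα _ (List.mem_append_left _ hv))
    · exact absurd rfl (n6 _ hv _ hβ)

/-- heads of disjoint nonempty lists are distinct -/
lemma near_heads {R : List (List V)} (h : R.flatten.Nodup) (hne : ∀ r ∈ R, r ≠ []) :
    (R.map List.head?).Nodup := by
  have h2 := (List.nodup_flatten.1 h).2
  rw [List.Nodup, List.pairwise_map]
  refine h2.imp_of_mem ?_
  intro r r' hr hr' hd he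
  cases r with
  | nil => exact hne _ hr rfl
  | cons a r =>
    cases r' with
    | nil => simp at he
    | cons b r' =>
      simp at he
      subst he
      exact hd (a := a) (by simp) (by simp)

/-- there is a head not among fewer values -/
lemma near_new {R AA : List (List V)} (h : (R.map List.head?).Nodup)
    (hlt : AA.length < R.length) : ∃ r ∈ R, ∀ a ∈ AA, r.head? ≠ a.head? := by
  by_contra hc
  push Not at hc
  have hsub : R.map List.head? ⊆ AA.map List.head? := by
    intro z hz
    obtain ⟨r, hr, rfl⟩ := List.mem_map.1 hz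
    obtain ⟨a, ha, he⟩ := hc r hr
    exact List.mem_map.2 ⟨a, ha, he.symm⟩
  have := (h.subperm hsub).length_le
  simp at this
  omega

end lists

theorem st_NEAR (h1 : ST_OPP) (h2 : ST_EX) (h3 : ST_SURG) : ST_NEAR := by
  intro V _ _ G k e K q N w W t hctx s lam Lam E1 E2 Y m hpar P hopt l hl B hB hBl hBh hBt
  obtain ⟨p1, ps, ptot, -, plen⟩ := h1 V G k e K q N w W t hctx s lam Lam E1 E2 Y m hpar P hopt
  obtain ⟨⟨hpk, hE, hk⟩, hmin⟩ := hopt
  have hlam := hpar.l1
  have hs := hpar.s1
  have hL := hpar.hL
  have hhe := hpar.he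
  have hLam : 2 ≤ Lam := by nlinarith
  have hsL : Lam ≤ s * Lam := by nlinarith
  have hhe' : 2 * (s * Lam) + Lam + E2 + E1 + lam ≤ e - w := by nlinarith
  -- decomposition
  obtain ⟨P1, hP1⟩ : ∃ P1, P.Perm (l :: P1) := ⟨_, List.perm_cons_erase hl⟩
  have hPlen : P.length = P1.length + 1 := by rw [hP1.length_eq]; simp
  have hVne : Nonempty V := by
    obtain ⟨α, β, he⟩ := hpk.2 l hl
    exact ⟨t α⟩
  have key : ∀ l' : List V, l' ∈ P → ∃ (A : List V) (a : V) (b : V) (D : List V),
      l' = A ++ a :: (core Lam l' ++ b :: D) ∧ A.length + 1 = Lam ∧ D.length + 1 = Lam ∧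
        (core Lam l').length + 2 * Lam = l'.length := by
    intro l' hl'
    have := plen l' hl'
    exact near_dec (by omega) (by omega)
  choose! A a b D hdec hA hD hclen using key
  -- ears
  have hear : ∀ l' ∈ P,
      (∃ u ∈ Tm q t, PL G (a l') u (a l' :: (A l').reverse) ∧
        ∀ v ∈ a l' :: (A l').reverse, v ∈ Tm q t → v = u) ∧
      (∃ u ∈ Tm q t, PL G (b l') u (b l' :: D l') ∧ ∀ v ∈ b l' :: D l', v ∈ Tm q t → v = u) ∧
      ∀ v ∈ core Lam l', v ∉ Tm q t := by
    intro l' hl'
    obtain ⟨α, β, he⟩ := hpk.2 l' hl'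
    exact near_ear he (hdec l' hl')
  have hPW : ∀ l' ∈ P, ∀ v ∈ l', v ∉ W := by
    intro l' hl'
    obtain ⟨α, β, he⟩ := hpk.2 l' hl'
    exact he.2.2.2.2.1
  have hchain : ∀ l' ∈ P, l'.IsChain G.Adj := by
    intro l' hl'
    obtain ⟨α, β, he⟩ := hpk.2 l' hl'
    exact he.2.2.2.1.2.2.2
  -- legs
  have hP1P : ∀ l' ∈ P1, l' ∈ P := fun l' hl' => hP1.mem_iff.2 (by simp [hl'])
  have hflat : P.flatten.Nodup := hpk.1
  have memA : ∀ l' ∈ P, ∀ v ∈ a l' :: (A l').reverse, v ∈ l' := by
    intro l' hl' v hv
    rw [hdec l' hl']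
    simp at hv ⊢
    tauto
  have memD : ∀ l' ∈ P, ∀ v ∈ b l' :: D l', v ∈ l' := by
    intro l' hl' v hv
    rw [hdec l' hl']
    simp at hv ⊢
    tauto
  have memC : ∀ l' ∈ P, ∀ v ∈ core Lam l', v ∈ l' := by
    intro l' hl' v hv
    rw [hdec l' hl']
    simp
    tauto
  have hnd : ∀ l' ∈ P, (A l' ++ a l' :: (core Lam l' ++ b l' :: D l')).Nodup := by
    intro l' hl'
    rw [← hdec l' hl']
    exact nodup_of_mem_flatten hflat hl'
  have hU : ∀ v, v ∈ Ucore Lam P ↔ ∃ l' ∈ P, v ∈ core Lam l' := by
    intro v
    simp [Ucore]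
  -- legs avoid the cores
  have legU : ∀ l' ∈ P, ∀ v, (v ∈ a l' :: (A l').reverse ∨ v ∈ b l' :: D l') →
      v ∉ Ucore Lam P := by
    intro l' hl' v hv hvU
    obtain ⟨l'', hl'', hv''⟩ := (hU v).1 hvU
    have hvl : v ∈ l' := by
      rcases hv with hv | hv
      · exact memA l' hl' v hv
      · exact memD l' hl' v hv
    have : l' = l'' := eq_of_mem_flatten hflat hl' hl'' hvl (memC l'' hl'' v hv'')
    subst this
    have hn := hnd l' hl'
    have e2 : A l' ++ a l' :: (core Lam l' ++ b l' :: D l') =
        (A l' ++ [a l']) ++ (core Lam l' ++ (b l' :: D l')) := by simp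
    rw [e2, List.nodup_append] at hn
    obtain ⟨n1, n2, n3⟩ := hn
    rw [List.nodup_append] at n2
    rcases hv with hv | hv
    · refine n3 v ?_ v (List.mem_append_left _ hv'') rfl
      simp at hv ⊢
      tauto
    · exact n2.2.2 v hv'' v hv rfl
  -- the legs
  obtain ⟨AA, hAA⟩ : ∃ AA : List (List V), AA = P.map (fun l' => b l' :: D l') ++
    P1.map (fun l' => a l' :: (A l').reverse) := ⟨_, rfl⟩
  have hAAlen : AA.length = 2 * P.length - 1 := by
    rw [hAA]; simp; omega
  have hAAflen : AA.flatten.length = AA.length * Lam := by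
    rw [hAA, List.flatten_append, List.length_append,
      near_len P _ Lam (fun x hx => by have := hD x hx; simp; omega),
      near_len P1 _ Lam (fun x hx => by have := hA x (hP1P x hx); simp; omega)]
    simp
    ring
  have hAAmem : ∀ r ∈ AA, ∃ l' ∈ P, (r = a l' :: (A l').reverse ∧ l' ∈ P1) ∨
      r = b l' :: D l' := by
    intro r hr
    rw [hAA, List.mem_append] at hr
    rcases hr with hr | hr
    · obtain ⟨l', hl', rfl⟩ := List.mem_map.1 hr
      exact ⟨l', hl', Or.inr rfl⟩
    · obtain ⟨l', hl', rfl⟩ := List.mem_map.1 hr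
      exact ⟨l', hP1P l' hl', Or.inl ⟨rfl, hl'⟩⟩
  have hAAflat : AA.flatten.Nodup := by
    have e1 : (P.map (fun l' => (A l' ++ [a l']) ++ (b l' :: D l'))).flatten.Nodup := by
      refine hflat.sublist ?_
      have := near_sub P (fun l' => (A l' ++ [a l']) ++ (b l' :: D l')) id ?_
      · simpa using this
      · intro l' hl'
        have e : id l' = (A l' ++ [a l']) ++ (core Lam l' ++ (b l' :: D l')) := by
          conv_lhs => rw [id, hdec l' hl']
          simp
        rw [e]
        exact List.Sublist.append_left (List.sublist_append_right _ _) _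
    have e2 := ((near_perm P (fun l' => A l' ++ [a l']) (fun l' => b l' :: D l')).nodup_iff).1 e1
    rw [hAA, List.flatten_append]
    rw [List.nodup_append] at e2 ⊢
    obtain ⟨g1, g2, g3⟩ := e2
    refine ⟨g2, ?_, ?_⟩
    · rw [List.nodup_flatten] at g1 ⊢
      have hperm : (P.map (fun l' => A l' ++ [a l'])).Perm
          ((l :: P1).map (fun l' => A l' ++ [a l'])) := hP1.map _
      constructor
      · intro r hr
        obtain ⟨l', hl', rfl⟩ := List.mem_map.1 hr
        have := g1.1 (A l' ++ [a l']) (List.mem_map.2 ⟨l', hP1P l' hl', rfl⟩)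
        rw [← List.nodup_reverse] at this
        simpa using this
      · have g4 := g1.2
        have g5 := hperm.pairwise g4 (fun {x y} h => h.symm)
        rw [List.map_cons, List.pairwise_cons, List.pairwise_map] at g5
        rw [List.pairwise_map]
        refine g5.2.imp ?_
        intro x y hxy v hv hv'
        exact hxy (a := v) (by simp at hv ⊢; tauto) (by simp at hv' ⊢; tauto)
    · intro x hx y hy hxy
      subst hxy
      obtain ⟨r, hr, hxr⟩ := List.mem_flatten.1 hy
      obtain ⟨l', hl', rfl⟩ := List.mem_map.1 hr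
      refine g3 x ?_ x hx rfl
      refine List.mem_flatten.2 ⟨A l' ++ [a l'], List.mem_map.2 ⟨l', hP1P l' hl', rfl⟩, ?_⟩
      simp at hxr ⊢
      tauto
  -- the tails
  have hBc : ∀ r ∈ B, ∃ (i : ℕ) (y x : V) (r' : List V), Lam ≤ i ∧ i < E2 ∧ l[i]? = some y ∧
      r = y :: x :: r' ∧ G.Adj y x ∧ (∃ u ∈ Tm q t, PL G x u (x :: r') ∧
        ∀ v ∈ x :: r', v ∈ Tm q t → v = u) ∧ ∀ v ∈ x :: r', v ∉ Ucore Lam P ∧ v ∉ W := by
    intro r hr
    obtain ⟨i, y, hi1, hi2, hi3, hi4⟩ := hBh r hr
    obtain ⟨g1, a0, ha0, b0, hb0, g2, g3, g4⟩ := hB.2 r hr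
    have ha0y : a0 = y := by
      have := g2.1
      rw [hi4] at this
      simpa using this.symm
    subst ha0y
    have hne : a0 ≠ b0 := by
      rintro rfl
      obtain ⟨l', hl', hc⟩ := (hU a0).1 ha0
      exact (hear l' hl').2.2 a0 hc hb0
    obtain ⟨r1, rfl⟩ := g2.eq_cons
    cases r1 with
    | nil =>
      exfalso
      have := g2.2.1
      simp at this
      exact hne this
    | cons x r' =>
      have hPL : PL G x b0 (x :: r') := by
        have e : a0 :: x :: r' = [a0] ++ x :: r' := rfl
        rw [e] at g2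
        exact g2.right
      have hadj : G.Adj a0 x := by
        have := g2.2.2.2
        rw [List.isChain_cons_cons] at this
        exact this.1
      refine ⟨i, a0, x, r', hi1, hi2, hi3, rfl, hadj, ⟨b0, hb0, hPL, ?_⟩, ?_⟩
      · intro v hv hvT
        exact g4 v (List.mem_cons_of_mem _ hv) hvT
      · intro v hv
        constructor
        · intro hvU
          have := g3 v (List.mem_cons_of_mem _ hv) hvU
          subst this
          have hn := g2.2.2.1
          exact (List.nodup_cons.1 hn).1 hv
        · have := g1 v (List.mem_cons_of_mem _ hv)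
          simpa using this
  obtain ⟨TB, hTB⟩ : ∃ TB : List (List V), TB = B.map List.tail := ⟨_, rfl⟩
  have hTBsub : TB.flatten.Sublist B.flatten := by
    have := near_sub B List.tail id (fun x _ => List.tail_sublist x)
    rw [hTB]
    simpa using this
  have hTBmem : ∀ r ∈ TB, ∃ (i : ℕ) (y x : V) (r' : List V), Lam ≤ i ∧ i < E2 ∧
      l[i]? = some y ∧ r = x :: r' ∧ G.Adj y x ∧ (∃ u ∈ Tm q t, PL G x u (x :: r') ∧
        ∀ v ∈ x :: r', v ∈ Tm q t → v = u) ∧ ∀ v ∈ x :: r', v ∉ Ucore Lam P ∧ v ∉ W := by
    intro r hr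
    rw [hTB] at hr
    obtain ⟨r0, hr0, rfl⟩ := List.mem_map.1 hr
    obtain ⟨i, y, x, r', f1, f2, f3, rfl, f4, f5, f6⟩ := hBc r0 hr0
    exact ⟨i, y, x, r', f1, f2, f3, rfl, f4, f5, f6⟩
  -- the set of vertices
  obtain ⟨K0, hK0⟩ : ∃ K0 : Finset V, K0 = AA.flatten.toFinset ∪ TB.flatten.toFinset := ⟨_, rfl⟩
  have hK0card : K0.card ≤ AA.flatten.length + TB.flatten.length := by
    rw [hK0]
    exact (card_union_le _ _).trans
      (Nat.add_le_add (List.toFinset_card_le _) (List.toFinset_card_le _))
  have hK0W : ∀ v ∈ K0, v ∉ W ∧ v ∉ Ucore Lam P := by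
    intro v hv
    rw [hK0, mem_union, List.mem_toFinset, List.mem_toFinset] at hv
    rcases hv with hv | hv
    · obtain ⟨r, hr, hvr⟩ := List.mem_flatten.1 hv
      obtain ⟨l', hl', hr'⟩ := hAAmem r hr
      rcases hr' with ⟨rfl, -⟩ | rfl
      · exact ⟨hPW l' hl' v (memA l' hl' v hvr), legU l' hl' v (Or.inl hvr)⟩
      · exact ⟨hPW l' hl' v (memD l' hl' v hvr), legU l' hl' v (Or.inr hvr)⟩
    · obtain ⟨r, hr, hvr⟩ := List.mem_flatten.1 hv
      obtain ⟨i, y, x, r', -, -, -, rfl, -, -, f6⟩ := hTBmem r hr
      exact ⟨(f6 v hvr).2, (f6 v hvr).1⟩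
  have hTA : TSys G K0 (Tm q t) AA := by
    refine ⟨hAAflat, fun r hr => ⟨?_, ?_⟩⟩
    · intro v hv
      rw [hK0, mem_union, List.mem_toFinset]
      exact Or.inl (List.mem_flatten.2 ⟨r, hr, hv⟩)
    · obtain ⟨l', hl', hr'⟩ := hAAmem r hr
      rcases hr' with ⟨rfl, -⟩ | rfl
      · obtain ⟨u, hu, f1, f2⟩ := (hear l' hl').1
        exact ⟨a l', u, hu, f1, f2⟩
      · obtain ⟨u, hu, f1, f2⟩ := (hear l' hl').2.1
        exact ⟨b l', u, hu, f1, f2⟩
  have hTT : TSys G K0 (Tm q t) TB := by
    refine ⟨hB.1.sublist hTBsub, fun r hr => ⟨?_, ?_⟩⟩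
    · intro v hv
      rw [hK0, mem_union, List.mem_toFinset, List.mem_toFinset]
      exact Or.inr (List.mem_flatten.2 ⟨r, hr, hv⟩)
    · obtain ⟨i, y, x, r', -, -, -, rfl, -, ⟨u, hu, f1, f2⟩, -⟩ := hTBmem r hr
      exact ⟨x, u, hu, f1, f2⟩
  have hTBlen : TB.length = 2 * P.length := by rw [hTB]; simpa using hBl
  obtain ⟨R, hR, hRlen, hRA, hRh⟩ := h2 V G K0 (Tm q t) AA TB hTA hTT (by omega)
  -- the new head
  obtain ⟨r0, hr0, hr0n⟩ := near_new (near_heads hR.1 hR.ne_nil)
    (show AA.length < R.length by omega)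
  obtain ⟨i, y, x, r', hi1, hi2, hiy, hr0h, hyx⟩ : ∃ (i : ℕ) (y x : V) (r' : List V),
      Lam ≤ i ∧ i < E2 ∧ l[i]? = some y ∧ r0.head? = some x ∧ G.Adj y x := by
    obtain ⟨r, hr, he⟩ := hRh r0 hr0
    rcases List.mem_append.1 hr with hr | hr
    · exact absurd he (hr0n r hr)
    · obtain ⟨i, y, x, r', f1, f2, f3, rfl, f4, -, -⟩ := hTBmem r hr
      exact ⟨i, y, x, r', f1, f2, f3, by rw [he]; rfl, f4⟩
  have hln := plen l hl
  have hcl := hclen l hl
  -- split the core of l
  obtain ⟨c1, c2, hcc, hc1⟩ : ∃ c1 c2 : List V, core Lam l = c1 ++ y :: c2 ∧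
      c1.length = i - Lam := by
    have hlt : i - Lam < (core Lam l).length := by omega
    have e : (core Lam l)[i - Lam]? = some y := by
      have hd := hdec l hl
      have e2 : A l ++ a l :: (core Lam l ++ b l :: D l) =
        (A l ++ [a l]) ++ (core Lam l ++ (b l :: D l)) := by simp
      rw [e2] at hd
      rw [hd] at hiy
      have hlen : (A l ++ [a l]).length = Lam := by
        have := hA l hl
        simp
        omega
      rw [List.getElem?_append_right (by omega), hlen, List.getElem?_append_left hlt] at hiy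
      exact hiy
    obtain ⟨_, e3⟩ := List.getElem?_eq_some_iff.1 e
    refine ⟨(core Lam l).take (i - Lam), (core Lam l).drop (i - Lam + 1), ?_, ?_⟩
    · rw [← e3, ← List.drop_eq_getElem_cons hlt, List.take_append_drop]
    · simp only [List.length_take]
      omega
  have hcl2 : c1.length + 1 + c2.length + 2 * Lam = l.length := by
    rw [← hcl, hcc]
    simp
    omega
  -- the transitions
  obtain ⟨T, hT⟩ : ∃ T : List (Tr V), T = ⟨x, y :: c2, b l⟩ ::
    P1.map (fun l' => ⟨a l', core Lam l', b l'⟩) := ⟨_, rfl⟩
  have hTlen : T.length = P.length := by rw [hT, hPlen]; simp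
  have hflat' : (l ++ P1.flatten).Nodup := by
    have := (hP1.flatten.nodup_iff).1 hflat
    simpa using this
  have hblen : P.flatten.length = l.length + P1.flatten.length := by
    have := hP1.flatten.length_eq
    simpa using this
  have hTclen : (T.map Tr.c).flatten.length + (i - Lam) + 2 * (P.length * Lam) =
      P.flatten.length := by
    have e1 : (P1.map (core Lam)).flatten.length + 2 * (P1.length * Lam) =
        P1.flatten.length := by
      have : ∀ Q : List (List V), (∀ l' ∈ Q, l' ∈ P) →
          (Q.map (core Lam)).flatten.length + 2 * (Q.length * Lam) = Q.flatten.length := by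
        intro Q
        induction Q with
        | nil => intro _; simp
        | cons r Q ih =>
          intro hQ
          have i1 := ih (fun l' hl' => hQ l' (by simp [hl']))
          have i2 := hclen r (hQ r (by simp))
          simp only [List.map_cons, List.flatten_cons, List.length_append, List.length_cons]
          have : (Q.length + 1) * Lam = Q.length * Lam + Lam := by ring
          omega
      exact this P1 hP1P
    have e2 : T.map Tr.c = (y :: c2) :: P1.map (core Lam) := by
      rw [hT]
      simp [Function.comp_def]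
    rw [e2, List.flatten_cons, List.length_append, List.length_cons, hblen]
    have : P.length * Lam = P1.length * Lam + Lam := by rw [hPlen]; ring
    omega
  have hxb : x ∉ (b l :: (P1.map (fun l' => [a l', b l'])).flatten) := by
    intro hx
    rcases List.mem_cons.1 hx with hx | hx
    · refine hr0n (b l :: D l) ?_ (by rw [hr0h, hx]; rfl)
      rw [hAA]
      exact List.mem_append_left _ (List.mem_map.2 ⟨l, hl, rfl⟩)
    · obtain ⟨r, hr, hxr⟩ := List.mem_flatten.1 hx
      obtain ⟨l', hl', rfl⟩ := List.mem_map.1 hr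
      simp at hxr
      rcases hxr with hxr | hxr
      · refine hr0n (a l' :: (A l').reverse) ?_ (by rw [hr0h, hxr]; rfl)
        rw [hAA]
        exact List.mem_append_right _ (List.mem_map.2 ⟨l', hl', rfl⟩)
      · refine hr0n (b l' :: D l') ?_ (by rw [hr0h, hxr]; rfl)
        rw [hAA]
        exact List.mem_append_left _ (List.mem_map.2 ⟨l', hP1P l' hl', rfl⟩)
  have hheadA : ∀ l' ∈ P1, ∃ r ∈ R, r.head? = some (a l') := by
    intro l' hl'
    obtain ⟨r, hr, he⟩ := hRA (a l' :: (A l').reverse) (by
      rw [hAA]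
      exact List.mem_append_right _ (List.mem_map.2 ⟨l', hl', rfl⟩))
    exact ⟨r, hr, he⟩
  have hheadB : ∀ l' ∈ P, ∃ r ∈ R, r.head? = some (b l') := by
    intro l' hl'
    obtain ⟨r, hr, he⟩ := hRA (b l' :: D l') (by
      rw [hAA]
      exact List.mem_append_left _ (List.mem_map.2 ⟨l', hl', rfl⟩))
    exact ⟨r, hr, he⟩
  have hcoreK : ∀ l' ∈ P, ∀ v ∈ core Lam l', v ∉ K0 ∧ v ∉ W ∧ v ∉ Tm q t := by
    intro l' hl' v hv
    refine ⟨fun hvK => (hK0W v hvK).2 ((hU v).2 ⟨l', hl', hv⟩), hPW l' hl' v (memC l' hl' v hv),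
      (hear l' hl').2.2 v hv⟩
  obtain ⟨P', hP', hP'len, hP'ear, hP'up, hP'low⟩ := h3 V G q W t K0 R T hctx.hub.inj hR
    (Finset.disjoint_left.2 (fun v hv => (hK0W v hv).1)) (by
      have e : T.flatMap (fun τ => [τ.a, τ.b]) =
          x :: b l :: (P1.map (fun l' => [a l', b l'])).flatten := by
        rw [hT, List.flatMap_cons, List.flatMap_map]
        simp [List.flatMap]
      rw [e, List.nodup_cons]
      refine ⟨hxb, ?_⟩
      refine hflat'.sublist ?_
      have s1 : [b l].Sublist l := by
        rw [List.singleton_sublist]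
        exact memD l hl _ (by simp)
      have s2 : (P1.map (fun l' => [a l', b l'])).flatten.Sublist P1.flatten := by
        have := near_sub P1 (fun l' => [a l', b l']) id ?_
        · simpa using this
        · intro l' hl'
          have e : id l' = A l' ++ (a l' :: (core Lam l' ++ b l' :: D l')) := by
            conv_lhs => rw [id, hdec l' (hP1P l' hl')]
          rw [e]
          refine List.Sublist.trans ?_ (List.sublist_append_right _ _)
          refine List.Sublist.cons_cons _ ?_
          refine List.Sublist.trans ?_ (List.sublist_append_right _ _)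
          simp
      have := s1.append s2
      simpa using this) (by
      refine hflat'.sublist ?_
      have e2 : T.map Tr.c = (y :: c2) :: P1.map (core Lam) := by
        rw [hT]
        simp [Function.comp_def]
      rw [e2, List.flatten_cons]
      refine List.Sublist.append ?_ ?_
      · have : (y :: c2).Sublist (A l ++ a l :: (core Lam l ++ b l :: D l)) := by
          rw [hcc]
          refine List.Sublist.trans ?_ (List.sublist_append_right _ _)
          refine List.Sublist.trans ?_ (List.sublist_cons_self _ _)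
          refine List.Sublist.trans ?_ (List.sublist_append_left _ _)
          exact List.sublist_append_right _ _
        rw [← hdec l hl] at this
        exact this
      · have := near_sub P1 (core Lam) id ?_
        · simpa using this
        · intro l' hl'
          have : (core Lam l').Sublist (A l' ++ a l' :: (core Lam l' ++ b l' :: D l')) := by
            refine List.Sublist.trans ?_ (List.sublist_append_right _ _)
            refine List.Sublist.trans ?_ (List.sublist_cons_self _ _)
            exact List.sublist_append_left _ _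
          rw [← hdec l' (hP1P l' hl')] at this
          exact this) (by
      intro τ hτ
      rw [hT] at hτ
      rcases List.mem_cons.1 hτ with rfl | hτ
      · refine ⟨?_, by simp, ?_, ⟨r0, hr0, hr0h⟩, hheadB l hl⟩
        · have hc := hchain l hl
          rw [hdec l hl, hcc] at hc
          have e : A l ++ a l :: (c1 ++ y :: c2 ++ b l :: D l) =
              (A l ++ a l :: c1) ++ ((y :: c2 ++ [b l]) ++ D l) := by simp
          rw [e] at hc
          have hc2 := hc.right_of_append.left_of_append
          have e3 : x :: (y :: c2) ++ [b l] = x :: y :: (c2 ++ [b l]) := by simp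
          show (x :: (y :: c2) ++ [b l]).IsChain G.Adj
          rw [e3, List.isChain_cons_cons]
          exact ⟨hyx.symm, by simpa using hc2⟩
        · intro v hv
          refine hcoreK l hl v ?_
          rw [hcc]
          exact List.mem_append_right _ hv
      · obtain ⟨l', hl', rfl⟩ := List.mem_map.1 hτ
        have hlP := hP1P l' hl'
        refine ⟨?_, ?_, hcoreK l' hlP, hheadA l' hl', hheadB l' hlP⟩
        · have hc := hchain l' hlP
          rw [hdec l' hlP] at hc
          have e : A l' ++ a l' :: (core Lam l' ++ b l' :: D l') =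
              A l' ++ ((a l' :: core Lam l' ++ [b l']) ++ D l') := by simp
          rw [e] at hc
          exact hc.right_of_append.left_of_append
        · intro h0
          have := hclen l' hlP
          have := plen l' hlP
          rw [show core Lam l' = [] from h0] at *
          simp at *
          omega)
  -- contradiction
  have hpL : P.length * Lam ≤ s * Lam := Nat.mul_le_mul_right _ ps
  have hpl : P.length * lam ≤ s * lam := Nat.mul_le_mul_right _ ps
  have hTBle : TB.flatten.length ≤ P.length * lam := hTBsub.length_le.trans hBt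
  have hAAl2 : AA.flatten.length + Lam = 2 * (P.length * Lam) := by
    rw [hAAflen, hAAlen, ← Nat.succ_mul]
    have : (2 * P.length - 1).succ = 2 * P.length := by omega
    rw [this]
    ring
  have hfin := hmin P' hP' (by
    intro l' hl'
    obtain ⟨τ, hτ, hlen⟩ := hP'ear l' hl'
    rw [hT] at hτ
    rcases List.mem_cons.1 hτ with rfl | hτ
    · simp only [List.length_cons] at hlen
      omega
    · obtain ⟨l'', hl'', rfl⟩ := List.mem_map.1 hτ
      have := hclen l'' (hP1P l'' hl'')
      have := plen l'' (hP1P l'' hl'')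
      simp only at hlen
      omega) (by omega)
  rw [hP'len, hTlen] at hfin
  omega

end Pool.Agent.Helper71.BM
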